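import Mathlib
import Pool.Agent.Q182.CMDefs
import Pool.Agent.Q182.CMProof

/-!
# Closed subgroups of a minimal abelian group times a compact group

If `A` is a minimal (totally minimal) abelian group and `K` is a compact group, then every closed
subgroup of `A × K` is minimal (totally minimal).
-/

namespace Pool.Agent.Results.MP_35204b_gt.CMinimalProduct

open Q182

universe u v

theorem result {A : Type u} {K : Type v} [CommGroup A] [TopologicalSpace A] [Group K]
    [TopologicalSpace K] [IsTopologicalGroup K] [CompactSpace K] [T2Space K] :
    (IsMinimalTG A → IsCMinimal (A × K)) ∧ (IsTotallyMinimalTG A → IsCTotallyMinimal (A × K)) :=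
  ⟨CM.q1, CM.q2⟩

end Pool.Agent.Results.MP_35204b_gt.CMinimalProduct
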